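import Pool.Agent.LibDL68.Bridge

/-!
# Semisimplicity of Frobenius when `(V × V × W)/Γ` is a linear variety

`V` is proper and smooth over the finite field `k`, `W` is smooth and geometrically irreducible,
the finite group `Γ` acts on both, and `Q = (V × V × W)/Γ` is linear: a finite successive union
of closed linear subvarieties and open cells `𝔸^a × 𝔾_m^b`.  Then Frobenius is semisimple on the
cohomology of `V`.  This applies to all smooth compactifications `V` of Deligne-Lusztig
varieties, with `W = G` the reductive group itself and `Γ = G^F`.

Idea of the proof.  The classes of degree `2 dim Q` on `Q` on which Frobenius has the eigenvalue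
`q^(dim Q')` are detected by the traces of the closures of the cells; so Frobenius is a scalar
there (`Old.linear_scalar`).  Through the Kuenneth formula, Poincare duality and the quotient, every
`Γ`-endomorphism of `H^i(V)` which commutes with the semisimple part of Frobenius commutes with
Frobenius; a bicommutant argument (`LA.semisimple_of_commutant`) kills the nilpotent part.
-/

namespace Pool.Agent.Results.MP_93fb11_ag.DeligneLusztig

open Pool.Agent.LibDL68

/-- Let `V` be proper and smooth of pure dimension `n` over the finite field `k`, `W` smooth and
geometrically irreducible of dimension `d`, `Γ` a finite group acting on `V` and `W`, and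
suppose the quotient `Q` of `V × V × W` by the diagonal action of `Γ` is a linear variety.  Then
Frobenius acts semisimply on `H^i(V)` for every `i ≤ 2n`. -/
theorem result (k : Type) [Field k] [Finite k] (K : Type) [Field K] [CharZero K]
    (T : CohTheory k K) (V W Q : Sch k) (n d : ℕ) (hV : IsComplete V) (hVn : IsSmoothDim n V)
    (hWv : IsVar W) (hWd : IsSmoothDim d W) (hW : IsGeomIrred W) (Γ : Type) [Group Γ] [Finite Γ]
    (ρ : Act Γ V) (σ : Act Γ W) (τ : Act Γ (Prd (Prd V V) W)) (hτ : IsDiag ρ σ τ)
    (hQv : IsVar Q) (π : Mor (Prd (Prd V V) W) Q) (hπ : IsQuotient τ π) (hQ : Linear Q)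
    (i : ℕ) (hi : i ≤ 2 * n) : Module.End.IsSemisimple (T.frob V i) :=
  main T V W Q n d hV hVn hWv hWd hW ρ σ τ hτ hQv π hπ hQ i hi

end Pool.Agent.Results.MP_93fb11_ag.DeligneLusztig
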