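import Pool.Agent.LibDw64.D
import Pool.Agent.LibDw64.Q

set_option autoImplicit false

namespace Pool.Agent.Results.MP_93fb11_ag.DworkPencil

open Polynomial Module Pool.Agent.LibDw64

/-- See the claim file. -/
theorem result (F : Type) [Field F] [Finite F] (n : ℕ) (s : F) (hs : s ^ n ≠ (n : F) ^ n)
    (A : Matrix (Fin (n - 1)) (Fin (n - 1)) ℂ) (hA : IsFrobN F n s A)
    (h : (n.Prime ∧ n ≠ 2 ∧ orderOf (Nat.card F : ZMod n) = n - 1) ∨
      (∃ m k : ℕ, m.Prime ∧ 0 < k ∧ n = m ^ k + 1 ∧ (m : F) ≠ 0 ∧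
        (Irreducible (tri (m ^ k) s) ∨ ∃ D D' : F[X], Irreducible D ∧ Irreducible D' ∧
          tri (m ^ k) s = D * D' ∧ Nat.Coprime D.natDegree D'.natDegree ∧
          ¬ m ∣ D.natDegree ∧ ¬ m ∣ D'.natDegree)) ∨
      (n = 5 ∧ (5 : F) ≠ 0 ∧ (∀ z ∈ A.charpoly.roots, ‖z‖ ^ 2 = (Nat.card F : ℝ) ^ 3) ∧
        (¬ IsSquare (Nat.card F) ∨ (Nat.card F : ZMod 5) ≠ 1) ∧
        (Odd (Nat.card F + Nat.card {u : F // aeval u (tri 4 s) = 0}) ∨
          5 < ringChar F ∧ (count 5 s : F) + 4 ≠ 0))) :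
    A.charpoly.roots.Nodup ∧ ⨆ μ, End.eigenspace (Matrix.toLin' A) μ = ⊤ := by
  suffices h : A.charpoly.roots.Nodup by
    refine ⟨h, LibSS99.diagonalisable_of_nodup (Matrix.toLin' A) ?_⟩
    rw [Matrix.charpoly_toLin']
    exact h
  rcases h with ⟨hn, hn2, ho⟩ | ⟨m, k, hm, hk, rfl, hmF, h | ⟨D, D', hD, hD', hDD, hc, h1, h2⟩⟩ |
    ⟨rfl, h5, hpure, hsq, h⟩
  · have : Fact n.Prime := ⟨hn⟩
    have hodd : Odd n := hn.odd_of_ne_two hn2
    have hnF : (n : F) ≠ 0 := by
      intro h0
      have h1 := hn.two_le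
      obtain ⟨p, hp⟩ := CharP.exists F
      have := Fintype.ofFinite F
      obtain ⟨f, hpp, hf⟩ := FiniteField.card F p
      have h2 : n = p := ((Nat.prime_dvd_prime_iff_eq hpp hn).1
        ((CharP.cast_eq_zero_iff F p n).1 h0)).symm
      have h3 : (Nat.card F : ZMod n) = 0 := by
        rw [Nat.card_eq_fintype_card, hf, ← h2]
        push_cast
        rw [CharP.cast_eq_zero, zero_pow f.pos.ne']
      rw [h3, orderOf_zero] at ho
      omega
    exact nodup_of_primitive hn2 hnF hs (hA.isFrob hodd) ho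
  · have : Fact m.Prime := ⟨hm⟩
    exact nodup_of_irreducible hmF hk hA h
  · have : Fact m.Prime := ⟨hm⟩
    exact nodup_of_two hmF hk hA hD hD' hDD hc h1 h2
  · have : Fact (Nat.Prime 5) := ⟨by norm_num⟩
    have : Fact (Nat.Prime 2) := ⟨by norm_num⟩
    have hA5 : IsFrob F 5 s A := hA.isFrob (by decide)
    have hF : ((5 : ℕ) : F) ≠ 0 := by exact_mod_cast h5
    refine nodup_five hF hs hA5 hpure hsq ?_
    set Q : ℤ := (Nat.card F : ℤ) with hQ
    refine ⟨Q ^ 3 - 4 * Q ^ 2 + 6 * Q - 4 - count 5 s, ?_, ?_⟩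
    · have hE0 : (Nat.card F : ℂ) ≠ 0 := by
        have := Nat.card_pos (α := F)
        exact_mod_cast this.ne'
      have h1 := hA5 F
      rw [finrank_self, pow_one] at h1
      rw [h1, hQ]
      simp only [Algebra.algebraMap_self, RingHom.id_apply]
      push_cast
      field_simp
      ring
    · rcases h with h | ⟨h6, h⟩
      · left
        have h1 := count_modEq 2 2 s
        have h2 : Nat.card {u : F // ((2 ^ 2 : ℕ) : F) * u ^ (2 ^ 2 + 1) - s * u ^ (2 ^ 2) + 1 = 0} =
            Nat.card {u : F // aeval u (tri 4 s) = 0} := by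
          refine Nat.card_congr (Equiv.subtypeEquivRight fun u => ?_)
          unfold tri
          simp
        rw [h2] at h1
        rw [Int.odd_iff]
        rw [Nat.odd_iff] at h
        unfold Nat.ModEq at h1
        have h3 : ((Nat.card F : ℤ) : ℤ) ^ 3 % 2 = (Nat.card F : ℤ) % 2 := by
          rcases Int.emod_two_eq_zero_or_one (Nat.card F : ℤ) with h | h <;>
            simp [pow_succ, Int.mul_emod, h]
        change count 5 s % 2 = _ at h1
        rw [hQ]
        omega
      · right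
        refine ⟨h6, ?_⟩
        have h4 : ((Nat.card F : ℕ) : F) = 0 := by
          have := Fintype.ofFinite F
          rw [Nat.card_eq_fintype_card]
          exact FiniteField.cast_card_eq_zero F
        intro h0
        apply h
        rw [hQ] at h0
        push_cast at h0
        rw [h4] at h0
        linear_combination -h0

end Pool.Agent.Results.MP_93fb11_ag.DworkPencil
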