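import Pool.Agent.LibKS44.F3
import Pool.Agent.LibKS44.G3
import Pool.Agent.LibKS44.K1
import Pool.Agent.LibKS44.H1
import Pool.Agent.LibKS44.H2
import Pool.Agent.LibST95.C
import Pool.Agent.LibST58.Sym
import Pool.Agent.LibLV7.C10
import Pool.Agent.LibLV7.D5
import Pool.Agent.LibLV7.H2

/-!
# Semisimplicity of Frobenius on the cohomology of Kuga-Sato varieties of all levels (MP_93fb11)

`T_p` and `S_p` are the Hecke operators on the functions on `SL₂(ℤ)` with values in `K ^ ι`, on which `SL₂(ℤ)` acts by an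
integral representation `ρ` of the monoid of the integral `2 × 2` matrices of determinant prime to `N ℓ`, which modulo the
prime `ℓ` depends only on the matrix modulo `N ℓ ^ r` (`RepN N ℓ ρ`; for instance `Sym ^ n`, tensored with the permutation
representation on `GL₂(ℤ/N ℓ ^ r)`). `Semisimple ρ p α c K`, `K` a field of characteristic zero, says that
`T_p² - 4 p S_p` is injective on `H¹(SL₂(ℤ), K ^ ι)`, and that on every Hecke stable subquotient of it on which `T_p` and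
`S_p` are semisimple every `F` with `F² - T_p F + p S_p = 0` (the congruence relation of Eichler and Shimura), which
commutes with `T_p`, is semisimple. It holds, `p` a prime which does not divide `N ℓ`,
* for every level `N ℓ ^ r` and every `ρ`, if `ℓ` does not divide `p - 1` and `T_p² - 4 p S_p` is injective on the one finite
  group `H¹(SL₂(ℤ), M)`, `M` the functions on `GL₂(ℤ/N ℓ)` with values in `𝔽_ℓ`;
* for `N = 1`, `ℓ = 11, 13, 17, 19`, if `p` is not a square modulo `ℓ`;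
* for `N = 1`, `ℓ = 3, 5, 7`, if `p` has even order modulo `ℓ` or `ρ(p) ^ d = p ^ (2 e)` for an odd `d` (even weight);
* (level one) for `ρ = Sym ^ n`, `n` even, and every prime `p`.
-/

set_option autoImplicit false

open Matrix KS44
open LV7 (MRep RepN pm pm_rep)
open scoped MatrixGroups

namespace Pool.Agent.Results.MP_93fb11_ag.KugaSatoLevels

variable {ι : Type} [Fintype ι] [DecidableEq ι]

/-- the group `SL₂(ℤ)` -/
abbrev G := SL(2, ℤ)

/-- the functions on `SL₂(ℤ)` with values in `K ^ ι` -/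
abbrev Fn (ι K : Type) := G → ι → K

/-- the action of the integral matrix `r` on `K ^ ι` -/
def ac (K : Type) [CommRing K] (r : Matrix ι ι ℤ) (v : ι → K) : ι → K :=
  fun i => ∑ j, (r i j : K) * v j

/-- `1`-cocycles of `SL₂(ℤ)` with values in `K ^ ι` -/
def IsCocycle (ρ : Mat → Matrix ι ι ℤ) (K : Type) [CommRing K] (u : Fn ι K) : Prop :=
  ∀ (g h : G) (i : ι), u (g * h) i = u g i + ac K (ρ g) (u h) i

/-- `1`-coboundaries -/
def IsCoboundary (ρ : Mat → Matrix ι ι ℤ) (K : Type) [CommRing K] (u : Fn ι K) : Prop :=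
  ∃ w : ι → K, ∀ (g : G) (i : ι), u g i = ac K (ρ g) w i - w i

/-- `α i * γ = c i γ * α k` for some `k` -/
def IsComp {I : Type} (α : I → Mat) (c : I → G → G) : Prop :=
  ∀ (i : I) (γ : G), ∃ k, α i * (γ : Mat) = (c i γ : Mat) * α k

/-- the Hecke operator `T_p`: `(T_p u)(γ) = ∑ i, ρ (adj (α i)) u (c i γ)` -/
def hecke (ρ : Mat → Matrix ι ι ℤ) {I : Type} [Fintype I] (α : I → Mat) (c : I → G → G)
    (K : Type) [CommRing K] (u : Fn ι K) : Fn ι K :=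
  fun γ k => ∑ i, ac K (ρ (α i).adjugate) (u (c i γ)) k

/-- the Hecke operator `S_p`: `(S_p u)(γ) = ρ (p) u γ` -/
def scal (ρ : Mat → Matrix ι ι ℤ) (p : ℕ) (K : Type) [CommRing K] (u : Fn ι K) : Fn ι K :=
  fun γ => ac K (ρ ((p : ℤ) • (1 : Mat))) (u γ)

/-- `T_p² - 4 p S_p` -/
def disc (ρ : Mat → Matrix ι ι ℤ) (p : ℕ) {I : Type} [Fintype I] (α : I → Mat) (c : I → G → G)
    (K : Type) [CommRing K] (u : Fn ι K) : Fn ι K :=
  fun γ i => hecke ρ α c K (hecke ρ α c K u) γ i - 4 * p * scal ρ p K u γ i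

/-- `A` consists of cocycles, `π : A → H` is surjective, and the coboundaries in `A` go to zero -/
def IsQuot (ρ : Mat → Matrix ι ι ℤ) {K H : Type} [Field K] [AddCommGroup H] [Module K H]
    (A : Submodule K (Fn ι K)) (π : Fn ι K →ₗ[K] H) : Prop :=
  (∀ u ∈ A, IsCocycle ρ K u ∧ (IsCoboundary ρ K u → π u = 0)) ∧ ∀ h : H, ∃ u ∈ A, π u = h

/-- the operator `t` maps `A` to `A` and induces `T` on the quotient `π` of `A` -/
def Induces {K H : Type} [Field K] [AddCommGroup H] [Module K H] (A : Submodule K (Fn ι K))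
    (π : Fn ι K →ₗ[K] H) (t : Fn ι K → Fn ι K) (T : Module.End K H) : Prop :=
  ∀ u ∈ A, t u ∈ A ∧ π (t u) = T (π u)

/-- `T_p² - 4 p S_p` is injective on `H¹`, and every `F` with the relation `F² - T_p F + p S_p = 0` on a Hecke subquotient
of `H¹` on which `T_p` and `S_p` are semisimple is semisimple -/
def Semisimple (ρ : Mat → Matrix ι ι ℤ) (p : ℕ) {I : Type} [Fintype I] (α : I → Mat) (c : I → G → G)
    (K : Type) [Field K] : Prop :=
  (∀ u : Fn ι K, IsCocycle ρ K u → IsCoboundary ρ K (disc ρ p α c K u) → IsCoboundary ρ K u) ∧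
    ∀ (H : Type) [AddCommGroup H] [Module K H] [FiniteDimensional K H]
      (A : Submodule K (Fn ι K)) (π : Fn ι K →ₗ[K] H) (T S F : Module.End K H), IsQuot ρ A π →
      Induces A π (hecke ρ α c K) T → Induces A π (scal ρ p K) S → T.IsSemisimple →
      S.IsSemisimple → Commute F T → F * F - T * F + (p : K) • S = 0 → F.IsSemisimple

omit [DecidableEq ι] in
theorem ac_eq (ρ : Mat → Matrix ι ι ℤ) (K : Type) [CommRing K] (g : Mat) (v : ι → K) :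
    act ρ K g v = ac K (ρ g) v := by
  funext i
  exact Finset.sum_congr rfl fun j _ => zsmul_eq_mul _ _

theorem coc_iff {q : ℕ} {ρ : Mat → Matrix ι ι ℤ} (hρ : MRep q ρ) (K : Type) [CommRing K] (u : Fn ι K) :
    IsCocycle ρ K u ↔ Coc (LV7.jG hρ K) (ι → K) u := by
  have h1 : ∀ g h : G, (LV7.jG hρ K g • u h : ι → K) = ac K (ρ g) (u h) := fun g h => ac_eq ρ K g (u h)
  constructor
  · intro hu g h
    rw [h1]
    funext i
    exact hu g h i
  · intro hu g h i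
    have h2 := congrFun (hu g h) i
    rw [h1] at h2
    exact h2

theorem cob_iff {q : ℕ} {ρ : Mat → Matrix ι ι ℤ} (hρ : MRep q ρ) (K : Type) [CommRing K] (u : Fn ι K) :
    IsCoboundary ρ K u ↔ Cob (LV7.jG hρ K) (ι → K) u := by
  have h1 : ∀ (g : G) (w : ι → K), (LV7.jG hρ K g • w : ι → K) = ac K (ρ g) w := fun g w => ac_eq ρ K g w
  constructor
  · rintro ⟨w, hw⟩
    refine ⟨w, fun g => ?_⟩
    rw [h1]
    funext i
    exact hw g i
  · rintro ⟨w, hw⟩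
    refine ⟨w, fun g i => ?_⟩
    have h2 := congrFun (hw g) i
    rw [h1] at h2
    exact h2

theorem SG_op {q p : ℕ} {ρ : Mat → Matrix ι ι ℤ} (hρ : MRep q ρ) (cop : IsCoprime (p : ℤ) (q : ℤ))
    (K : Type) [CommRing K] (u : Fn ι K) : (LV7.SG hρ cop K).op u = scal ρ p K u := by
  funext γ
  change ∑ _i : Unit, act ρ K ((p : ℤ) • (1 : Mat)) (u γ) = ac K (ρ ((p : ℤ) • (1 : Mat))) (u γ)
  rw [Fintype.sum_unique, ac_eq]

theorem TG_op {q p : ℕ} {ρ : Mat → Matrix ι ι ℤ} (hρ : MRep q ρ) (cop : IsCoprime (p : ℤ) (q : ℤ))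
    {I : Type} [Fintype I] {α : I → Mat} (hα : IsReps p α) (K : Type) [CommRing K] (u : Fn ι K) :
    (LV7.TG hρ cop hα K).op u = hecke ρ α (comp α) K u := by
  funext γ k
  change (∑ i : I, act ρ K (α i).adjugate (u (comp α i γ))) k =
    ∑ i, ac K (ρ (α i).adjugate) (u (comp α i γ)) k
  rw [Finset.sum_apply]
  exact Finset.sum_congr rfl fun i _ => congrFun (ac_eq ρ K _ _) k

theorem dsc_eq {q p : ℕ} {ρ : Mat → Matrix ι ι ℤ} (hρ : MRep q ρ) (cop : IsCoprime (p : ℤ) (q : ℤ))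
    {I : Type} [Fintype I] {α : I → Mat} (hα : IsReps p α) (K : Type) [CommRing K] (u : Fn ι K) :
    dsc (LV7.TG hρ cop hα K) (LV7.SG hρ cop K) (4 * p) u = disc ρ p α (comp α) K u := by
  funext γ i
  change (LV7.TG hρ cop hα K).op ((LV7.TG hρ cop hα K).op u) γ i -
    (4 * (p : ℤ)) • (LV7.SG hρ cop K).op u γ i = _
  rw [TG_op, TG_op, SG_op, zsmul_eq_mul]
  push_cast
  rfl

theorem comp_eq {p : ℕ} {I : Type} {α : I → Mat} (hα : IsReps p α) {c : I → G → G} (hc : IsComp α c) :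
    c = comp α := by
  funext i γ
  obtain ⟨k, hk⟩ := hc i γ
  exact ((comp_unique hα hk).1).symm

theorem setup {ℓ p : ℕ} (hl : ℓ.Prime) (hp : p.Prime) (cop : IsCoprime (p : ℤ) (ℓ : ℤ)) :
    ∃ τ : SL(2, ℤ), Setup ℓ p τ := by
  have h2 : ¬ (ℓ : ℤ) ∣ (p : ℤ) := by
    intro h
    have h1 : IsUnit (ℓ : ℤ) := cop.isUnit_of_dvd' h dvd_rfl
    exact (Nat.prime_iff_prime_int.mp hl).not_isUnit h1
  obtain ⟨τ, h1, h3⟩ := lift_col ℓ hl (p : ℤ) 0 (fun h => h2 h.1)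
  exact ⟨τ, ⟨hl, hp, cop, h1, by simpa using h3⟩⟩

theorem inj_reps {ℓ p : ℕ} {τ : SL(2, ℤ)} (h : Setup ℓ p τ) (cop : IsCoprime (p : ℤ) (ℓ : ℤ))
    (ρ : Mat → Matrix ι ι ℤ) (hρ : IsRep ℓ ρ) {I : Type} [Fintype I] (α : I → Mat) (hα : IsReps p α)
    (K : Type) [Field K] [CharZero K]
    (h1 : Inj (ι → K) (TG hρ h.cop (alpha_reps τ p h.hp) K) (SG hρ h.cop K) (4 * p)) :
    Inj (ι → K) (TG hρ cop hα K) (SG hρ cop K) (4 * p) := by
  intro u hu hd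
  refine h1 u hu ?_
  obtain ⟨w, hw⟩ := hd
  obtain ⟨w', hw'⟩ := op_op_reps hρ cop (alpha_reps τ p h.hp) hα K u hu
  refine ⟨w + w', fun g => ?_⟩
  have e1 := hw g
  have e2 := hw' g
  change (TG hρ h.cop (alpha_reps τ p h.hp) K).op ((TG hρ h.cop (alpha_reps τ p h.hp) K).op u) g -
    (4 * (p : ℤ)) • (SG hρ h.cop K).op u g = _
  change (TG hρ cop hα K).op ((TG hρ cop hα K).op u) g - (4 * (p : ℤ)) • (SG hρ cop K).op u g = _ at e1
  rw [smul_add]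
  have e3 : (TG hρ h.cop (alpha_reps τ p h.hp) K).op ((TG hρ h.cop (alpha_reps τ p h.hp) K).op u) g =
      (TG hρ cop hα K).op ((TG hρ cop hα K).op u) g + (jG hρ K g • w' - w') := by
    exact (add_sub_cancel _ _).symm.trans (congrArg _ e2)
  rw [e3]
  have e4 : (TG hρ cop hα K).op ((TG hρ cop hα K).op u) g =
      (4 * (p : ℤ)) • (SG hρ cop K).op u g + (jG hρ K g • w - w) := by
    rw [← e1]
    abel
  rw [e4]
  abel

theorem cases {ℓ p : ℕ} (hℓ : ℓ = 3 ∨ ℓ = 5 ∨ ℓ = 7) (h : ¬ ℓ ∣ p) :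
    (∃ m, ℓ ∣ p ^ m + 1) ∨ (ℓ : ℤ) ∣ (p : ℤ) ^ 3 - 1 := by
  have hmod : ∀ m : ℕ, p ^ m % ℓ = (p % ℓ) ^ m % ℓ := fun m => Nat.pow_mod p m ℓ
  have hint : ∀ r : ℕ, p % ℓ = r → (ℓ : ℤ) ∣ (r : ℤ) ^ 3 - 1 → (ℓ : ℤ) ∣ (p : ℤ) ^ 3 - 1 := by
    intro r hr h1
    have h2 : (ℓ : ℤ) ∣ (p : ℤ) - r := by
      refine ⟨(p / ℓ : ℕ), ?_⟩
      have h3 := Nat.div_add_mod p ℓ
      rw [hr] at h3
      have h4 : (p : ℤ) = ℓ * (p / ℓ : ℕ) + r := by exact_mod_cast h3.symm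
      linear_combination h4
    have h5 : (p : ℤ) ^ 3 - 1 = ((p : ℤ) ^ 3 - (r : ℤ) ^ 3) + ((r : ℤ) ^ 3 - 1) := by ring
    rw [h5]
    exact dvd_add (h2.trans (sub_dvd_pow_sub_pow _ _ _)) h1
  have hnat : ∀ m r : ℕ, p % ℓ = r → ℓ ∣ r ^ m + 1 → ∃ m, ℓ ∣ p ^ m + 1 := by
    intro m r hr h1
    refine ⟨m, ?_⟩
    have h2 : p ^ m + 1 ≡ r ^ m + 1 [MOD ℓ] := by
      apply Nat.ModEq.add_right
      apply Nat.ModEq.pow
      rw [← hr]
      exact (Nat.mod_modEq p ℓ).symm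
    exact (h2.dvd_iff dvd_rfl).mpr h1
  rcases hℓ with rfl | rfl | rfl
  · have : p % 3 = 1 ∨ p % 3 = 2 := by omega
    rcases this with h | h
    · exact Or.inr (hint 1 h (by norm_num))
    · exact Or.inl (hnat 1 2 h (by norm_num))
  · have : p % 5 = 1 ∨ p % 5 = 2 ∨ p % 5 = 3 ∨ p % 5 = 4 := by omega
    rcases this with h | h | h | h
    · exact Or.inr (hint 1 h (by norm_num))
    · exact Or.inl (hnat 2 2 h (by norm_num))
    · exact Or.inl (hnat 2 3 h (by norm_num))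
    · exact Or.inl (hnat 1 4 h (by norm_num))
  · have : p % 7 = 1 ∨ p % 7 = 2 ∨ p % 7 = 3 ∨ p % 7 = 4 ∨ p % 7 = 5 ∨ p % 7 = 6 := by omega
    rcases this with h | h | h | h | h | h
    · exact Or.inr (hint 1 h (by norm_num))
    · exact Or.inr (hint 2 h (by norm_num))
    · exact Or.inl (hnat 3 3 h (by norm_num))
    · exact Or.inr (hint 4 h (by norm_num))
    · exact Or.inl (hnat 3 5 h (by norm_num))
    · exact Or.inl (hnat 1 6 h (by norm_num))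

theorem inj_all_primes {ℓ p : ℕ} (hℓ : ℓ = 3 ∨ ℓ = 5 ∨ ℓ = 7) (hp : p.Prime)
    (ρ : Mat → Matrix ι ι ℤ) (hρ : IsRep ℓ ρ) (cop : IsCoprime (p : ℤ) (ℓ : ℤ))
    (h : (∃ m, ℓ ∣ p ^ m + 1) ∨
      ∃ d e : ℕ, Odd d ∧ ρ ((p : ℤ) • (1 : Mat)) ^ d = ((p : ℤ) ^ (2 * e)) • (1 : Matrix ι ι ℤ))
    {I : Type} [Fintype I] (α : I → Mat) (hα : IsReps p α) (K : Type) [Field K] [CharZero K] :
    Inj (ι → K) (TG hρ cop hα K) (SG hρ cop K) (4 * p) := by
  have hl : ℓ.Prime := by rcases hℓ with rfl | rfl | rfl <;> norm_num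
  obtain ⟨τ, ht⟩ := setup hl hp cop
  refine inj_reps ht cop ρ hρ α hα K ?_
  have old : (∃ m, ℓ ∣ p ^ m + 1) → Inj (ι → K) (TG hρ ht.cop (alpha_reps τ p ht.hp) K)
      (SG hρ ht.cop K) (4 * p) := by
    rintro ⟨m, hm⟩
    have hm' : (ℓ : ℤ) ∣ (p : ℤ) ^ m + 1 := by exact_mod_cast hm
    exact field_level ht.hl hρ ht.cop (alpha_reps τ p ht.hp) _ (inj_mod ht hℓ m hm' hρ) K
  rcases h with hm | ⟨d, e, hd, hS⟩
  · exact old hm
  · have hnd : ¬ ℓ ∣ p := by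
      intro h
      have h1 : IsUnit (ℓ : ℤ) := cop.isUnit_of_dvd' (by exact_mod_cast h) dvd_rfl
      exact (Nat.prime_iff_prime_int.mp hl).not_isUnit h1
    rcases cases hℓ hnd with hm | h3
    · exact old hm
    · have h5 : ∀ a : ℕ, (ℓ : ℤ) ∣ (p : ℤ) ^ (3 * a) - 1 := by
        intro a
        rw [pow_mul]
        have h1 := sub_dvd_pow_sub_pow ((p : ℤ) ^ 3) 1 a
        rw [one_pow] at h1
        exact h3.trans h1
      refine ST95.even_level ht hℓ (3 * d) (3 * e) (h5 d) ?_ (Nat.odd_mul.mpr ⟨by decide, hd⟩) hρ ?_ K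
      · have h6 : 2 * (3 * e) = 3 * (2 * e) := by ring
        rw [h6]
        exact h5 _
      · rw [mul_comm 3 d, pow_mul, hS, smul_pow, one_pow, ← pow_mul]
        congr 2
        ring

theorem semisimple_of_inj {q p : ℕ} (hp : p.Prime) (ρ : Mat → Matrix ι ι ℤ) (hρ : MRep q ρ)
    (cop : IsCoprime (p : ℤ) (q : ℤ)) {I : Type} [Fintype I] (α : I → Mat) (hα : IsReps p α)
    (c : I → G → G) (hc : IsComp α c) (K : Type) [Field K] [CharZero K]
    (hI : Inj (ι → K) (LV7.TG hρ cop hα K) (LV7.SG hρ cop K) (4 * p)) : Semisimple ρ p α c K := by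
  obtain rfl := comp_eq hα hc
  refine ⟨fun u hu hd => (cob_iff hρ K u).mpr (hI u ((coc_iff hρ K u).mp hu) ?_), ?_⟩
  · rw [dsc_eq hρ cop hα K u]
    exact (cob_iff hρ K _).mp hd
  rintro H _ _ _ A π T S F ⟨hA, hπ⟩ hT hS sT sS hFT hrel
  have hTA : ∀ u ∈ A, (LV7.TG hρ cop hα K).op u ∈ A := by
    intro u hu
    rw [TG_op hρ cop hα K u]
    exact (hT u hu).1
  have hSA : ∀ u ∈ A, (LV7.SG hρ cop K).op u ∈ A := by
    intro u hu
    rw [SG_op hρ cop K u]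
    exact (hS u hu).1
  have hT' : ∀ u (hu : u ∈ A), (π.domRestrict A) ⟨_, hTA u hu⟩ = T ((π.domRestrict A) ⟨u, hu⟩) := by
    intro u hu
    exact (congrArg π (TG_op hρ cop hα K u)).trans (hT u hu).2
  have hS' : ∀ u (hu : u ∈ A), (π.domRestrict A) ⟨_, hSA u hu⟩ = S ((π.domRestrict A) ⟨u, hu⟩) := by
    intro u hu
    exact (congrArg π (SG_op hρ cop K u)).trans (hS u hu).2
  refine semisimple_of_relation T S F p (Nat.cast_ne_zero.mpr hp.ne_zero) sT sS hFT hrel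
    (LV7.subquotient hρ cop hα K hI H T S A (π.domRestrict A)
      (fun u hu => (coc_iff hρ K u).mp (hA u hu).1) ?_
      (fun u hu hc => (hA u hu).2 ((cob_iff hρ K u).mpr hc)) hTA hSA hT' hS')
  intro x
  obtain ⟨u, hu, hx⟩ := hπ x
  exact ⟨⟨u, hu⟩, hx⟩

/-- `T_p² - 4 p S_p` is injective on `H¹(SL₂(ℤ), M)`, `M` the functions on `GL₂(ℤ/N ℓ)` with values in `𝔽_ℓ` -/
def BaseInj (N ℓ p : ℕ) [NeZero (N * ℓ)] {I : Type} [Fintype I] (α : I → Mat) (c : I → G → G) : Prop :=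
  ∀ u : Fn (GL (Fin 2) (ZMod (N * ℓ))) (ZMod ℓ), IsCocycle (pm (N * ℓ)) (ZMod ℓ) u →
    IsCoboundary (pm (N * ℓ)) (ZMod ℓ) (disc (pm (N * ℓ)) p α c (ZMod ℓ) u) →
      IsCoboundary (pm (N * ℓ)) (ZMod ℓ) u

/-- the cases of the theorem -/
def Case (N ℓ p : ℕ) [NeZero (N * ℓ)] (ρ : Mat → Matrix ι ι ℤ) {I : Type} [Fintype I] (α : I → Mat)
    (c : I → G → G) : Prop :=
  (¬ ℓ ∣ p - 1 ∧ BaseInj N ℓ p α c) ∨
    (N = 1 ∧ (ℓ = 11 ∨ ℓ = 13 ∨ ℓ = 17 ∨ ℓ = 19) ∧ ¬ IsSquare (p : ZMod ℓ)) ∨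
    (N = 1 ∧ (ℓ = 3 ∨ ℓ = 5 ∨ ℓ = 7) ∧
      ((∃ m, ℓ ∣ p ^ m + 1) ∨
        ∃ d e : ℕ, Odd d ∧ ρ ((p : ℤ) • (1 : Mat)) ^ d = ((p : ℤ) ^ (2 * e)) • (1 : Matrix ι ι ℤ)))

theorem isRep {ℓ : ℕ} {ρ : Mat → Matrix ι ι ℤ} (h : RepN 1 ℓ ρ) : IsRep ℓ ρ := by
  obtain ⟨h1, h2, r, h3⟩ := h
  simp only [one_mul] at h2 h3
  refine ⟨h1, h2, r, fun g h hg hh hgh => h3 g h hg hh fun i j => ?_⟩
  push_cast
  exact hgh i j

theorem level {N ℓ p : ℕ} [NeZero (N * ℓ)] (hl : ℓ.Prime) (hp : p.Prime)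
    (cop : IsCoprime (p : ℤ) ((N * ℓ : ℕ) : ℤ)) (h1 : ¬ ℓ ∣ p - 1) {I : Type} [Fintype I] {α : I → Mat}
    (hα : IsReps p α) (hH : BaseInj N ℓ p α (comp α)) {ρ : Mat → Matrix ι ι ℤ} (hρ : RepN N ℓ ρ) (K : Type)
    [Field K] [CharZero K] : Inj (ι → K) (LV7.TG hρ.mrep cop hα K) (LV7.SG hρ.mrep cop K) (4 * p) := by
  have h1' : ¬ (ℓ : ℤ) ∣ (p : ℤ) - 1 := by
    intro h
    apply h1
    have h2 : ((p - 1 : ℕ) : ℤ) = (p : ℤ) - 1 := by
      rw [Nat.cast_sub hp.one_le, Nat.cast_one]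
    rw [← h2] at h
    exact_mod_cast h
  refine LV7.level_field hl hp cop h1' hα (fun u hu hd => ?_) hρ K
  refine (cob_iff (pm_rep (N * ℓ)) (ZMod ℓ) u).mp (hH u ((coc_iff (pm_rep (N * ℓ)) (ZMod ℓ) u).mpr hu) ?_)
  rw [← dsc_eq (pm_rep (N * ℓ)) cop hα (ZMod ℓ) u]
  exact (cob_iff (pm_rep (N * ℓ)) (ZMod ℓ) _).mpr hd

theorem result :
    (∀ (N ℓ p : ℕ) [NeZero (N * ℓ)], ℓ.Prime → p.Prime → ¬ p ∣ N * ℓ →
      ∀ (ι : Type) [Fintype ι] [DecidableEq ι] (ρ : Mat → Matrix ι ι ℤ), RepN N ℓ ρ →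
      ∀ (I : Type) [Fintype I] (α : I → Mat), IsReps p α → ∀ c : I → G → G, IsComp α c →
      Case N ℓ p ρ α c → ∀ (K : Type) [Field K] [CharZero K], Semisimple ρ p α c K) ∧
    ∀ (p n : ℕ), p.Prime → Even n → ∀ (I : Type) [Fintype I] (α : I → Mat), IsReps p α →
      ∀ c : I → G → G, IsComp α c → ∀ (K : Type) [Field K] [CharZero K], Semisimple (sym n) p α c K := by
  have hcop : ∀ q p : ℕ, p.Prime → ¬ p ∣ q → IsCoprime (p : ℤ) (q : ℤ) := fun q p hp h =>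
    Nat.isCoprime_iff_coprime.mpr ((Nat.Prime.coprime_iff_not_dvd hp).mpr h)
  refine ⟨?_, ?_⟩
  · intro N ℓ p _ hl hp hpN ι _ _ ρ hρ I _ α hα c hc hcase K _ _
    have cop := hcop _ p hp hpN
    rcases hcase with ⟨h1, h2⟩ | ⟨rfl, h1, h2⟩ | ⟨rfl, h1, h2⟩
    · obtain rfl := comp_eq hα hc
      exact semisimple_of_inj hp ρ hρ.mrep cop α hα _ hc K (level hl hp cop h1 hα h2 hρ K)
    · have hρ' := isRep hρ
      have cop' : IsCoprime (p : ℤ) (ℓ : ℤ) := hcop _ p hp (by rwa [one_mul] at hpN)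
      obtain ⟨τ, ht⟩ := setup hl hp cop'
      have h3 := LV7.inj_mod_D ht h1 h2 hρ'
      have h4 := field_level ht.hl hρ' ht.cop (alpha_reps τ p ht.hp) _ h3 K
      exact semisimple_of_inj hp ρ ⟨hρ'.one, hρ'.mul⟩ cop' α hα c hc K
        (inj_reps ht cop' ρ hρ' α hα K h4)
    · have hρ' := isRep hρ
      have cop' : IsCoprime (p : ℤ) (ℓ : ℤ) := hcop _ p hp (by rwa [one_mul] at hpN)
      exact semisimple_of_inj hp ρ ⟨hρ'.one, hρ'.mul⟩ cop' α hα c hc K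
        (inj_all_primes h1 hp ρ hρ' cop' h2 α hα K)
  · intro p n hp hn I _ α hα c hc K _ _
    obtain ⟨e, rfl⟩ := hn
    have hS : (sym (e + e)) ((p : ℤ) • (1 : Mat)) ^ 1 =
        ((p : ℤ) ^ (2 * e)) • (1 : Matrix (Fin (e + e + 1)) (Fin (e + e + 1)) ℤ) := by
      rw [pow_one, sym_scalar, ← two_mul]
    by_cases h3 : p = 3
    · have cop := hcop 5 p hp (by rw [h3]; norm_num)
      exact semisimple_of_inj hp _ ⟨(sym_rep _ 5).one, (sym_rep _ 5).mul⟩ cop α hα c hc K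
        (inj_all_primes (Or.inr (Or.inl rfl)) hp _ (sym_rep _ 5) cop (Or.inr ⟨1, e, odd_one, hS⟩) α hα K)
    · have cop := hcop 3 p hp (fun h => h3 ((Nat.prime_dvd_prime_iff_eq hp Nat.prime_three).mp h))
      exact semisimple_of_inj hp _ ⟨(sym_rep _ 3).one, (sym_rep _ 3).mul⟩ cop α hα c hc K
        (inj_all_primes (Or.inl rfl) hp _ (sym_rep _ 3) cop (Or.inr ⟨1, e, odd_one, hS⟩) α hα K)

end Pool.Agent.Results.MP_93fb11_ag.KugaSatoLevels
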