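import Pool.Agent.LibPR30.Z1
import Pool.Agent.LibSS99.Main

set_option autoImplicit false

/-!
# Distinct Frobenius eigenvalues from power residues (MP_93fb11)

`l` is an odd prime and `F` a finite field with `q ≡ 1` modulo `l` elements. The Frobenius is
unipotent modulo the places above `l`; its first order term at these places is given by the `l`-th
power residue symbols of `c` and `1 - c` (for the Dwork family: of `c` and `s ^ l - l ^ l c`).
-/

namespace Pool.Agent.Results.MP_93fb11_ag.PowerResidues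

open Polynomial Module Pool.Agent.LibPR30

/-- See the claim file. -/
theorem result (F : Type) [Field F] [Finite F] (l : ℕ) (hl : l.Prime) (hl2 : l ≠ 2)
    (c : F) (hc : ∀ y : F, y ^ l ≠ c) (r : ℕ) (A : Matrix (Fin r) (Fin r) ℂ)
    (h : (r < l ∧ r ≤ 8 ∧ ∃ (e ρ : ℕ) (χ : MulChar F ℂ) (t : F) (a b : Fin r → ℤ),
        orderOf χ = l ^ (e + 1) ∧ 1 - c = c ^ ρ * t ^ l ∧
        (C (1 - (ρ : ZMod l)) * ∏ i, (X - C (a i : ZMod l)) +
          C (ρ : ZMod l) * ∏ i, (X - C (b i : ZMod l)) : (ZMod l)[X]).Separable ∧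
        IsHyp χ a b c A) ∨
      (r + 1 = l ∧ ∃ s : F, (∀ y : F, y ^ l ≠ s ^ l - (l : F) ^ l * c) ∧ IsDwork F l c s A)) :
    A.charpoly.roots.Nodup ∧ ⨆ μ, End.eigenspace (Matrix.toLin' A) μ = ⊤ := by
  suffices h : A.charpoly.roots.Nodup by
    refine ⟨h, LibSS99.diagonalisable_of_nodup (Matrix.toLin' A) ?_⟩
    rw [Matrix.charpoly_toLin']
    exact h
  rcases h with ⟨hr, hr8, e, ρ, χ, t, a, b, hχ, hρ, hsep, hA⟩ | ⟨hr, s, hs, hA⟩
  · exact main_hyp hl hl2 χ hχ c t hc ρ hρ hr hr8 a b hsep A hA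
  · obtain rfl : r = l - 1 := by omega
    exact main_dwork hl hl2 c s hc hs A hA

end Pool.Agent.Results.MP_93fb11_ag.PowerResidues
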